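import Pool.Agent.H79.FF.Minor
import Pool.Agent.H79.LF.N399_TB_Many

set_option autoImplicit false
set_option linter.unusedSectionVars false

/-!
# Sums of order at most four and minimal counterexamples
-/

namespace Pool.Agent.H79.FF

open Finset Pool.Agent.TH462.T4 Pool.Agent.TH676.T4 Pool.Agent.TH497.T4 Pool.Agent.N399.TB

/-- no minimal counterexample is a minor of `K` -/
def Good {W : Type} (K : SimpleGraph W) : Prop :=
  ∀ (V E : Type) [Fintype V] [DecidableEq V] [Fintype E] [DecidableEq E] (s t : E → V),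
    MinCx s t → ¬ PetMinor s t → ¬ IsMinor (under s t) K

theorem Good.minor {V W : Type} {H : SimpleGraph V} {K : SimpleGraph W} (h : IsMinor H K)
    (hK : Good K) : Good H := fun V E _ _ _ _ s t hM hP hm => hK V E s t hM hP (hm.trans h)

variable {V E : Type} [Fintype V] [DecidableEq V] [Fintype E] [DecidableEq E]

open Classical in
theorem sep_small {src dst : E → V} (hM : MinCx src dst) (Z J : Finset V) (hZ : Z.card ≤ 4)
    (hJ : ∀ e, (src e ∈ J ∨ dst e ∈ J) → ∀ x, (src e = x ∨ dst e = x) → x ∈ J ∨ x ∈ Z)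
    (g3 : Disjoint J Z) :
    (J ∩ univ.filter (fun v => Nis src dst v)).card ≤ Z.card - 2 ∨
      ((J ∪ Z)ᶜ ∩ univ.filter (fun v => Nis src dst v)).card ≤ Z.card - 2 := by
  set N : Finset V := univ.filter (fun v => Nis src dst v) with hN
  by_contra hno
  push Not at hno
  obtain ⟨g1, g2⟩ := hno
  have hO : ∀ y ∈ (J ∪ Z)ᶜ ∩ N, y ∉ J ∧ y ∉ Z ∧ Nis src dst y := by
    intro y hy
    rw [mem_inter, mem_compl, mem_union, not_or] at hy
    exact ⟨hy.1.1, hy.1.2, (mem_filter.mp hy.2).2⟩
  have hx : ∀ x ∈ J ∩ N, x ∈ J ∧ Nis src dst x := by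
    intro x hx
    obtain ⟨h1, h2⟩ := mem_inter.mp hx
    exact ⟨h1, (mem_filter.mp h2).2⟩
  have hc : Closed src dst Z J := by
    intro e he
    exact ⟨mem_union.mpr (hJ e he _ (Or.inl rfl)), mem_union.mpr (hJ e he _ (Or.inr rfl))⟩
  by_cases hZ4 : Z.card = 4
  · rw [hZ4] at g1 g2
    obtain ⟨x1, m1, x2, m2, x3, m3, n12, n13, n23⟩ := two_lt_card.mp (show 2 < _ from g1)
    obtain ⟨y1, k1, y2, k2, y3, k3, l12, l13, l23⟩ := two_lt_card.mp (show 2 < _ from g2)
    exact sep4 hM hc g3 hZ (hx _ m1).1 (hx _ m2).1 (hx _ m3).1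
      n12 n13 n23 (hx _ m1).2 (hx _ m2).2 (hx _ m3).2 (hO _ k1).1 (hO _ k1).2.1 (hO _ k2).1
      (hO _ k2).2.1 (hO _ k3).1 (hO _ k3).2.1 l12 l13 l23 (hO _ k1).2.2 (hO _ k2).2.2
      (hO _ k3).2.2
  by_cases hZ3 : Z.card = 3
  · rw [hZ3] at g1 g2
    obtain ⟨x1, m1, x2, m2, n12⟩ := one_lt_card.mp (show 1 < _ from g1)
    obtain ⟨y1, k1, y2, k2, l12⟩ := one_lt_card.mp (show 1 < _ from g2)
    exact sep3 hM hc (by omega) (hx _ m1).1 (hx _ m1).2 (hx _ m2).1 (hx _ m2).2 n12
      (hO _ k1).1 (hO _ k1).2.1 (hO _ k1).2.2 (hO _ k2).1 (hO _ k2).2.1 (hO _ k2).2.2 l12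
  · obtain ⟨x, m1⟩ := card_pos.mp (show 0 < (J ∩ N).card by omega)
    obtain ⟨y, k1⟩ := card_pos.mp (show 0 < ((J ∪ Z)ᶜ ∩ N).card by omega)
    exact sep2 hM hc (by omega) (hx _ m1).1 (hx _ m1).2 (hO _ k1).1 (hO _ k1).2.1 (hO _ k1).2.2

theorem nis_of_adj {src dst : E → V} {v w : V} (h : (under src dst).Adj v w) : Nis src dst v := by
  obtain ⟨hne, e, he⟩ := under_adj.mp h
  rcases he with ⟨h1, h2⟩ | ⟨h1, h2⟩
  · exact ⟨e, by rw [h1, h2]; exact hne, Or.inl h1⟩
  · exact ⟨e, by rw [h1, h2]; exact hne.symm, Or.inr h2⟩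

theorem adj_of_nis {src dst : E → V} {v : V} (h : Nis src dst v) :
    ∃ w, (under src dst).Adj v w := by
  obtain ⟨e, hne, he⟩ := h
  rcases he with he | he
  · exact ⟨dst e, under_adj.mpr ⟨by rw [← he]; exact hne, e, Or.inl ⟨he, rfl⟩⟩⟩
  · exact ⟨src e, under_adj.mpr ⟨by rw [← he]; exact hne.symm, e, Or.inr ⟨rfl, he⟩⟩⟩

/-- **Sums of order at most four.** -/
theorem Good.sum {W : Type} [Finite W] {K : SimpleGraph W} {X Y S : Set W}
    (hcov : ∀ v, v ∈ X ∨ v ∈ Y ∨ v ∈ S) (hXY : ∀ x ∈ X, ∀ y ∈ Y, ¬ K.Adj x y)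
    (hS : S.ncard ≤ 4) (hX : Good (side K X S)) (hY : Good (side K Y S)) : Good K := by
  classical
  intro V E _ _ _ _ s t hM hP hm
  obtain ⟨B, b1, b2, b3⟩ := hm
  set N : Finset V := univ.filter (fun v => Nis s t v) with hN
  have bne : ∀ v ∈ N, (B v).Nonempty := by
    intro v hv
    obtain ⟨w, hw⟩ := adj_of_nis (mem_filter.mp hv).2
    obtain ⟨x, hx, -⟩ := b3 v w hw
    exact ⟨x, hx⟩
  set Z : Finset V := univ.filter (fun v => (B v ∩ S).Nonempty) with hZ
  have memZ : ∀ v, v ∈ Z ↔ (B v ∩ S).Nonempty := by intro v; simp [hZ]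
  have hZS : Z.card ≤ S.ncard := by
    choose g hg using fun v : Z => (memZ v.1).mp v.2
    have hinj : Function.Injective g := by
      intro v w h
      by_contra hne
      have h1 : v.1 ≠ w.1 := fun h2 => hne (Subtype.ext h2)
      refine Set.disjoint_left.mp (b2 _ _ h1) (hg v).1 ?_
      rw [h]
      exact (hg w).1
    have h1 : (Set.range g).ncard = Z.card := by
      rw [← Set.image_univ, Set.ncard_image_of_injective _ hinj, Set.ncard_univ, Nat.card_eq_fintype_card,
        Fintype.card_coe]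
    rw [← h1]
    refine Set.ncard_le_ncard ?_ (Set.toFinite _)
    rintro _ ⟨v, rfl⟩
    exact (hg v).2
  -- the vertices inside of a side
  have inside : ∀ (A A' : Set W), (∀ v, v ∈ A ∨ v ∈ A' ∨ v ∈ S) → (∀ x ∈ A, ∀ y ∈ A', ¬ K.Adj x y) →
      ∀ v, ¬ (B v ∩ S).Nonempty → ∀ a ∈ B v, a ∈ A → B v ⊆ A := by
    intro A A' hc hA v hv a ha haA b hb
    have h1 := (pre_iff _ _).mp (b1 v) a ha b hb
    induction h1 with
    | refl => exact haA
    | @tail x y _ h2 ih =>
      have hx := ih h2.1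
      rcases hc y with h3 | h3 | h3
      · exact h3
      · exact absurd h2.2.2 (hA x hx y h3)
      · exact absurd ⟨y, h2.2.1, h3⟩ hv
  set J : Finset V := univ.filter (fun v => (B v).Nonempty ∧ ¬ (B v ∩ S).Nonempty ∧ B v ⊆ X) with hJ
  have memJ : ∀ v, v ∈ J ↔ (B v).Nonempty ∧ ¬ (B v ∩ S).Nonempty ∧ B v ⊆ X := by
    intro v; simp [hJ]
  -- closedness
  have cl : ∀ v ∈ J, ∀ w, (under s t).Adj v w → w ∈ J ∨ w ∈ Z := by
    intro v hv w hvw
    rw [memJ] at hv
    obtain ⟨x, hx, y, hy, hxy⟩ := b3 v w hvw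
    by_cases hw : (B w ∩ S).Nonempty
    · exact Or.inr ((memZ w).mpr hw)
    · left
      rw [memJ]
      refine ⟨⟨y, hy⟩, hw, ?_⟩
      rcases hcov y with h1 | h1 | h1
      · exact inside X Y hcov hXY w hw y hy h1
      · exact absurd hxy (hXY x (hv.2.2 hx) y h1)
      · exact absurd ⟨y, hy, h1⟩ hw
  have hdis : Disjoint J Z := by
    rw [disjoint_left]
    intro v hv hv'
    exact ((memJ v).mp hv).2.1 ((memZ v).mp hv')
  have hsep := sep_small hM Z J (hZS.trans hS) (by
    intro e he x hx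
    by_cases hloop : s e = t e
    · left
      rcases he with h1 | h1 <;> rcases hx with rfl | rfl
      · exact h1
      · rw [← hloop]; exact h1
      · rw [hloop]; exact h1
      · exact h1
    · rcases he with h1 | h1 <;> rcases hx with rfl | rfl
      · exact Or.inl h1
      · exact cl _ h1 _ (under_adj.mpr ⟨hloop, e, Or.inl ⟨rfl, rfl⟩⟩)
      · exact cl _ h1 _ (under_adj.mpr ⟨Ne.symm hloop, e, Or.inr ⟨rfl, rfl⟩⟩)
      · exact Or.inl h1) hdis
  have hZS2 : Z.card - 2 ≤ S.ncard - 2 := Nat.sub_le_sub_right hZS 2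
  rcases hsep with h1 | h1
  · -- the vertices in `X` are few: `H` is a minor of the side of `Y`
    refine hY V E s t hM hP (embed (X := Y) (Y := X) (S := S) (fun v => ?_) ?_ B b1 b2 b3 (J ∩ N)
      (h1.trans hZS2) ?_ ?_)
    · rcases hcov v with h | h | h
      · exact Or.inr (Or.inl h)
      · exact Or.inl h
      · exact Or.inr (Or.inr h)
    · intro y hy x hx h
      exact hXY x hx y hy h.symm
    · rintro v hv ⟨w, hw⟩
      by_cases hvS : (B v ∩ S).Nonempty
      · exact Or.inl hvS
      · right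
        have hvN : v ∈ N := mem_filter.mpr ⟨mem_univ _, nis_of_adj hw⟩
        have hvJ : v ∉ J := fun h => hv (mem_inter.mpr ⟨h, hvN⟩)
        obtain ⟨a, ha⟩ := bne v hvN
        have haX : a ∉ X := fun h => hvJ ((memJ v).mpr ⟨⟨a, ha⟩, hvS, inside X Y hcov hXY v hvS a ha h⟩)
        have haY : a ∈ Y := by
          rcases hcov a with h | h | h
          · exact absurd h haX
          · exact h
          · exact absurd ⟨a, ha, h⟩ hvS
        refine inside Y X (fun v => ?_) (fun y hy x hx h => hXY x hx y hy h.symm) v hvS a ha haY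
        rcases hcov v with h | h | h
        · exact Or.inr (Or.inl h)
        · exact Or.inl h
        · exact Or.inr (Or.inr h)
    · intro v hv w hw hvw
      rcases cl v (mem_inter.mp hv).1 w hvw with h2 | h2
      · exact absurd (mem_inter.mpr ⟨h2, mem_filter.mpr ⟨mem_univ _, nis_of_adj hvw.symm⟩⟩) hw
      · exact (memZ w).mp h2
  · refine hX V E s t hM hP (embed (X := X) (Y := Y) (S := S) hcov hXY B b1 b2 b3
      ((J ∪ Z)ᶜ ∩ N) (h1.trans hZS2) ?_ ?_)
    · rintro v hv ⟨w, hw⟩
      by_cases hvS : (B v ∩ S).Nonempty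
      · exact Or.inl hvS
      · right
        have hvN : v ∈ N := mem_filter.mpr ⟨mem_univ _, nis_of_adj hw⟩
        have hvJ : v ∈ J := by
          by_contra h
          refine hv (mem_inter.mpr ⟨?_, hvN⟩)
          rw [mem_compl, mem_union, not_or]
          exact ⟨h, fun h2 => hvS ((memZ v).mp h2)⟩
        exact ((memJ v).mp hvJ).2.2
    · intro v hv w hw hvw
      have hwN : w ∈ N := mem_filter.mpr ⟨mem_univ _, nis_of_adj hvw.symm⟩
      have hw' : w ∈ J ∪ Z := by
        by_contra h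
        exact hw (mem_inter.mpr ⟨mem_compl.mpr h, hwN⟩)
      rcases mem_union.mp hw' with h2 | h2
      · exfalso
        have h3 := (mem_compl.mp (mem_inter.mp hv).1)
        rw [mem_union, not_or] at h3
        rcases cl w h2 v hvw.symm with h4 | h4
        · exact h3.1 h4
        · exact h3.2 h4
      · exact (memZ w).mp h2

/-- the minors of a graph, step by step -/
theorem mc_minor {W : Type} (K : SimpleGraph W) :
    MC (V := V) (E := E) (fun s t => IsMinor (under s t) K) where
  del := by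
    rintro s t e ⟨B, b1, b2, b3⟩ hne
    refine ⟨B, b1, b2, fun v w hvw => b3 v w ?_⟩
    rw [under_adj] at hvw ⊢
    obtain ⟨h1, d, hd⟩ := hvw
    refine ⟨h1, d, ?_⟩
    unfold Pool.Agent.TH462.T4.lp at hd
    split_ifs at hd with h2
    · exfalso
      rcases hd with ⟨h3, h4⟩ | ⟨h3, h4⟩
      · exact h1 (h3.symm.trans h4)
      · exact h1 (h4.symm.trans h3)
    · exact hd
  con := by
    rintro s t e ⟨B, b1, b2, b3⟩ hne
    set u := s e with hu
    set v := t e with hv
    have huv : (under s t).Adj u v := under_adj.mpr ⟨hne, e, Or.inl ⟨rfl, rfl⟩⟩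
    let C : V → Set W := fun x => if x = v then ∅ else if x = u then B u ∪ B v else B x
    have Cv : C v = ∅ := if_pos rfl
    have Cu : C u = B u ∪ B v := by
      show (if u = v then ∅ else if u = u then B u ∪ B v else B u) = _
      rw [if_neg hne, if_pos rfl]
    have Cx : ∀ x, x ≠ v → x ≠ u → C x = B x := by
      intro x h1 h2
      show (if x = v then ∅ else if x = u then B u ∪ B v else B x) = _
      rw [if_neg h1, if_neg h2]
    refine ⟨C, fun x => ?_, fun x y hxy => ?_, fun x y hxy => ?_⟩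
    · by_cases h1 : x = v
      · rw [h1, Cv, pre_iff]
        intro a ha
        exact absurd ha (Set.notMem_empty _)
      by_cases h2 : x = u
      · rw [h2, Cu, pre_iff]
        obtain ⟨p, hp, q, hq, hpq⟩ := b3 u v huv
        have mono : ∀ (A : Set W), A ⊆ B u ∪ B v → ∀ a b, Relation.ReflTransGen (stp K A) a b →
            Relation.ReflTransGen (stp K (B u ∪ B v)) a b := by
          intro A hA a b hab
          induction hab with
          | refl => exact Relation.ReflTransGen.refl
          | tail _ h2 ih => exact ih.tail ⟨hA h2.1, hA h2.2.1, h2.2.2⟩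
        have m1 := fun a ha b hb => mono (B u) Set.subset_union_left a b ((pre_iff _ _).mp (b1 u) a ha b hb)
        have m2 := fun a ha b hb => mono (B v) Set.subset_union_right a b ((pre_iff _ _).mp (b1 v) a ha b hb)
        intro a ha b hb
        rcases ha with ha | ha <;> rcases hb with hb | hb
        · exact m1 a ha b hb
        · exact ((m1 a ha p hp).tail ⟨Or.inl hp, Or.inr hq, hpq⟩).trans (m2 q hq b hb)
        · exact ((m2 a ha q hq).tail ⟨Or.inr hq, Or.inl hp, hpq.symm⟩).trans (m1 p hp b hb)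
        · exact m2 a ha b hb
      · rw [Cx x h1 h2]
        exact b1 x
    · have sub : ∀ x a, a ∈ C x → ∃ z, a ∈ B z ∧ (ctr u v z = x) := by
        intro x a ha
        by_cases h1 : x = v
        · rw [h1, Cv] at ha
          exact absurd ha (Set.notMem_empty _)
        by_cases h2 : x = u
        · rw [h2, Cu] at ha
          rcases ha with ha | ha
          · refine ⟨u, ha, ?_⟩
            unfold ctr
            rw [if_neg hne, h2]
          · refine ⟨v, ha, ?_⟩
            unfold ctr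
            rw [if_pos rfl, h2]
        · rw [Cx x h1 h2] at ha
          refine ⟨x, ha, ?_⟩
          unfold ctr
          rw [if_neg h1]
      rw [Set.disjoint_left]
      intro a ha hb
      obtain ⟨z, hz, hzx⟩ := sub x a ha
      obtain ⟨z', hz', hzy⟩ := sub y a hb
      by_cases hzz : z = z'
      · subst hzz
        exact hxy (hzx.symm.trans hzy)
      · exact Set.disjoint_left.mp (b2 z z' hzz) hz hz'
    · have sup : ∀ z, B z ⊆ C (ctr u v z) := by
        intro z a ha
        by_cases h1 : z = v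
        · have h2 : ctr u v z = u := by unfold ctr; rw [if_pos h1]
          rw [h2, Cu]
          rw [h1] at ha
          exact Or.inr ha
        · have h2 : ctr u v z = z := by unfold ctr; rw [if_neg h1]
          rw [h2]
          by_cases h3 : z = u
          · rw [h3, Cu]
            rw [h3] at ha
            exact Or.inl ha
          · rw [Cx z h1 h3]
            exact ha
      obtain ⟨hne', d, hd⟩ := under_adj.mp hxy
      simp only [Function.comp] at hd
      have hd' : s d ≠ t d := by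
        intro h
        rw [h] at hd
        rcases hd with ⟨h1, h2⟩ | ⟨h1, h2⟩
        · exact hne' (h1.symm.trans h2)
        · exact hne' (h2.symm.trans h1)
      obtain ⟨a, ha, b, hb, hab⟩ := b3 (s d) (t d) (under_adj.mpr ⟨hd', d, Or.inl ⟨rfl, rfl⟩⟩)
      rcases hd with ⟨h1, h2⟩ | ⟨h1, h2⟩
      · refine ⟨a, ?_, b, ?_, hab⟩
        · rw [← h1]; exact sup _ ha
        · rw [← h2]; exact sup _ hb
      · refine ⟨b, ?_, a, ?_, hab.symm⟩
        · rw [← h2]; exact sup _ hb
        · rw [← h1]; exact sup _ ha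

/-- flows of the graphs without bad minors -/
theorem Good.flow {s t : E → V} (h : Good (under s t)) (hP : ¬ PetMinor s t)
    (hbr : Br s t ∅ ∅) : FlowOn s t ∅ ∅ := by
  by_contra hf
  obtain ⟨s', t', ⟨h1, h2⟩, hM⟩ := exists_minCx (MC.and mc_noPet (mc_minor (under s t))) s t
    ⟨hP, IsMinor.rfl' _⟩ hbr hf
  exact h V E s' t' hM h1 h2

end Pool.Agent.H79.FF
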