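import Mathlib

set_option autoImplicit false

/-!
# Sums of order at most four: definitions
-/

namespace Pool.Agent.H79.FF

/-- The simple graph of the multigraph in which the edge `e` has the ends `s e` and `t e`: two
different vertices are adjacent if they are the ends of an edge. -/
def under {V E : Type} (s t : E → V) : SimpleGraph V :=
  SimpleGraph.fromRel fun x y => ∃ e, s e = x ∧ t e = y

/-- `H` is a minor of `K`, up to isolated vertices: there are disjoint vertex sets `B v` of `K`, one
for each vertex `v` of `H`, which induce connected subgraphs (the empty set is allowed), such that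
an edge joins `B v` and `B w` if `v` and `w` are adjacent. -/
def IsMinor {V W : Type} (H : SimpleGraph V) (K : SimpleGraph W) : Prop :=
  ∃ B : V → Set W, (∀ v, (K.induce (B v)).Preconnected) ∧
    (∀ v w, v ≠ w → Disjoint (B v) (B w)) ∧
    ∀ v w, H.Adj v w → ∃ x ∈ B v, ∃ y ∈ B w, K.Adj x y

/-- The graph obtained from the subgraph of `K` induced by `X ∪ S` by adding `|S| - 2` new vertices
(none if `|S| ≤ 2`) and all edges which join two elements of `S`, two new vertices, or an element of
`S` and a new vertex. The vertices outside of `X ∪ S` are kept as isolated vertices. -/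
def side {V : Type} (K : SimpleGraph V) (X S : Set V) : SimpleGraph (V ⊕ Fin (S.ncard - 2)) :=
  SimpleGraph.fromRel fun a b => match a, b with
    | Sum.inl x, Sum.inl y => (K.Adj x y ∧ x ∈ X ∪ S ∧ y ∈ X ∪ S) ∨ (x ∈ S ∧ y ∈ S)
    | Sum.inl x, Sum.inr _ => x ∈ S
    | Sum.inr _, Sum.inl x => x ∈ S
    | Sum.inr _, Sum.inr _ => True

/-- The cube: two circuits with four vertices and a perfect matching between them. -/
def cube : SimpleGraph (Bool × Fin 4) :=
  SimpleGraph.fromRel fun x y => (x.1 = y.1 ∧ y.2 = x.2 + 1) ∨ x.2 = y.2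

/-- The path-width of `K` is at most five. -/
def PathwidthLeFive {V : Type} (K : SimpleGraph V) : Prop :=
  ∃ X : ℕ → Finset V, (∀ a b, K.Adj a b → ∃ i, a ∈ X i ∧ b ∈ X i) ∧
    (∀ i j k, i ≤ j → j ≤ k → ∀ a, a ∈ X i → a ∈ X k → a ∈ X j) ∧ ∀ i, (X i).card ≤ 6

/-- The basic graphs: `K` has at most seventeen vertices which are not isolated, or path-width at
most five, or no circuit with more than fifteen vertices, or nine vertices which meet all edges, or
no nine disjoint edges, or five vertices which meet all paths with three vertices, or no cube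
minor. -/
def Basic {V : Type} (K : SimpleGraph V) : Prop :=
  K.support.ncard ≤ 17 ∨
  PathwidthLeFive K ∨
  (∀ (v : V) (p : K.Walk v v), p.IsCycle → p.length ≤ 15) ∨
  (∃ X : Finset V, X.card ≤ 9 ∧ ∀ a b, K.Adj a b → a ∈ X ∨ b ∈ X) ∨
  (¬ ∃ f : Fin 9 × Bool → V, Function.Injective f ∧ ∀ i, K.Adj (f (i, false)) (f (i, true))) ∨
  (∃ X : Finset V, X.card ≤ 5 ∧
    ∀ a b c, K.Adj a b → K.Adj b c → a ≠ c → a ∈ X ∨ b ∈ X ∨ c ∈ X) ∨
  ¬ IsMinor cube K

/-- The least class of finite graphs which contains the basic graphs, the minors of its members, and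
the sums of order at most four of its members: `K` is in the class if its vertices can be divided
in `X`, `Y` and a set `S` with at most four elements, such that no edge joins `X` and `Y`, and the
graphs `side K X S` and `side K Y S` are in the class. -/
inductive Tame : {V : Type} → SimpleGraph V → Prop
  | basic {V : Type} [Finite V] (K : SimpleGraph V) : Basic K → Tame K
  | minor {V W : Type} [Finite V] (H : SimpleGraph V) (K : SimpleGraph W) : IsMinor H K → Tame K →
      Tame H
  | sum {V : Type} [Finite V] (K : SimpleGraph V) (X Y S : Set V) :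
      (∀ v, v ∈ X ∨ v ∈ Y ∨ v ∈ S) → (∀ x ∈ X, ∀ y ∈ Y, ¬ K.Adj x y) → S.ncard ≤ 4 →
      Tame (side K X S) → Tame (side K Y S) → Tame K

end Pool.Agent.H79.FF
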