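import Pool.Agent.H79.FF.Crit
import Pool.Agent.H79.LF.W5h14_Circ_Res
import Pool.Agent.H79.LF.Q253_P3_Main
import Pool.Agent.H79.LF.Q253_M8_Main
import Pool.Agent.H79.LF.Q253_VC_Main
import Pool.Agent.H79.LF.TH395_P5_Fin
import Pool.Agent.H79.LF.Cub_Main

set_option autoImplicit false
set_option linter.unusedSectionVars false

/-!
# The basic graphs have no minimal counterexample as a minor
-/

namespace Pool.Agent.H79.FF

open Finset Pool.Agent.TH462.T4 Pool.Agent.TH676.T4 Pool.Agent.TH497.T4 Pool.Agent.N399.TB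

variable {V E : Type} [Fintype V] [DecidableEq V] [Fintype E] [DecidableEq E]
variable {W : Type} {K : SimpleGraph W} {s t : E → V} {B : V → Set W}

/-- the minor relation in terms of the edges -/
theorem b3e (b3 : ∀ v w, (under s t).Adj v w → ∃ x ∈ B v, ∃ y ∈ B w, K.Adj x y) :
    ∀ e, s e ≠ t e → ∃ x ∈ B (s e), ∃ y ∈ B (t e), K.Adj x y :=
  fun e he => b3 _ _ (under_adj.mpr ⟨he, e, Or.inl ⟨rfl, rfl⟩⟩)

theorem eq_of_mem (b2 : ∀ v w, v ≠ w → Disjoint (B v) (B w)) {v w : V} {x : W} (hv : x ∈ B v)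
    (hw : x ∈ B w) : v = w := by
  by_contra h
  exact Set.disjoint_left.mp (b2 v w h) hv hw

open Classical in
theorem card_hit (b2 : ∀ v w, v ≠ w → Disjoint (B v) (B w)) (X : Finset W) :
    (univ.filter (fun v => ∃ x ∈ X, x ∈ B v)).card ≤ X.card := by
  classical
  rcases isEmpty_or_nonempty W with hW | hW
  · rw [filter_eq_empty_iff.mpr]
    · exact Nat.zero_le _
    · rintro v _ ⟨x, _⟩
      exact hW.false x
  have h : ∀ v ∈ univ.filter (fun v => ∃ x ∈ X, x ∈ B v), ∃ x, x ∈ X ∧ x ∈ B v := by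
    intro v hv
    exact (mem_filter.mp hv).2
  choose! f hf using h
  refine card_le_card_of_injOn f (fun v hv => (hf v hv).1) ?_
  intro v hv w hw hvw
  have h1 := (hf v hv).2
  rw [hvw] at h1
  exact eq_of_mem b2 h1 (hf w hw).2

/-! ### Few vertices -/

theorem few [Finite W] (hM : MinCx s t) (hP : ¬ PetMinor s t)
    (b2 : ∀ v w, v ≠ w → Disjoint (B v) (B w))
    (b3 : ∀ v w, (under s t).Adj v w → ∃ x ∈ B v, ∃ y ∈ B w, K.Adj x y) :
    18 ≤ K.support.ncard := by
  classical
  refine (many hM hP).trans ?_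
  have h : ∀ v ∈ univ.filter (fun v => Nis s t v), ∃ x, x ∈ B v ∧ x ∈ K.support := by
    intro v hv
    obtain ⟨w, hw⟩ := adj_of_nis (mem_filter.mp hv).2
    obtain ⟨x, hx, y, _, hxy⟩ := b3 v w hw
    exact ⟨x, hx, y, hxy⟩
  have hW : Nonempty W := by
    have h1 := many hM hP
    obtain ⟨v, hv⟩ := card_pos.mp (lt_of_lt_of_le (by norm_num) h1)
    obtain ⟨x, _⟩ := h v hv
    exact ⟨x⟩
  choose! f hf using h
  rw [← Set.ncard_coe_finset]
  refine Set.ncard_le_ncard_of_injOn f (fun v hv => (hf v (by simpa using hv)).2) ?_ (Set.toFinite _)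
  intro v hv w hw hvw
  have h1 := (hf v (by simpa using hv)).1
  rw [hvw] at h1
  exact eq_of_mem b2 h1 (hf w (by simpa using hw)).1

/-! ### Vertex covers, matchings, paths with three vertices -/

theorem cov_of (b2 : ∀ v w, v ≠ w → Disjoint (B v) (B w))
    (b3 : ∀ v w, (under s t).Adj v w → ∃ x ∈ B v, ∃ y ∈ B w, K.Adj x y)
    (h : ∃ X : Finset W, X.card ≤ 9 ∧ ∀ a b, K.Adj a b → a ∈ X ∨ b ∈ X) :
    Pool.Agent.Q253.VC.Cov s t := by
  classical
  obtain ⟨X, hX, h⟩ := h
  refine ⟨univ.filter (fun v => ∃ x ∈ X, x ∈ B v), (card_hit b2 X).trans hX, fun e he => ?_⟩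
  obtain ⟨x, hx, y, hy, hxy⟩ := b3e b3 e he
  simp only [mem_filter, mem_univ, true_and]
  rcases h x y hxy with h1 | h1
  · exact Or.inl ⟨x, h1, hx⟩
  · exact Or.inr ⟨y, h1, hy⟩

theorem mt_of (b2 : ∀ v w, v ≠ w → Disjoint (B v) (B w))
    (b3 : ∀ v w, (under s t).Adj v w → ∃ x ∈ B v, ∃ y ∈ B w, K.Adj x y)
    (h : ¬ ∃ f : Fin 9 × Bool → W, Function.Injective f ∧
      ∀ i, K.Adj (f (i, false)) (f (i, true))) :
    Pool.Agent.Q253.M8.Mt s t := by
  classical
  intro M hM hM'
  by_contra hc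
  push Not at hc
  apply h
  obtain ⟨g⟩ : Nonempty (Fin 9 ↪ M) := by
    apply Function.Embedding.nonempty_of_card_le
    rw [Fintype.card_coe, Fintype.card_fin]
    exact hc
  have hx : ∀ i : Fin 9, ∃ p : W × W, p.1 ∈ B (s (g i)) ∧ p.2 ∈ B (t (g i)) ∧ K.Adj p.1 p.2 := by
    intro i
    obtain ⟨x, hx, y, hy, hxy⟩ := b3e b3 (g i) (hM _ (g i).2)
    exact ⟨(x, y), hx, hy, hxy⟩
  choose p h1 h2 h3 using hx
  have key : ∀ i j, i ≠ j → s (g i) ≠ s (g j) ∧ s (g i) ≠ t (g j) ∧ t (g i) ≠ s (g j) ∧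
      t (g i) ≠ t (g j) := by
    intro i j hij
    exact hM' _ (g i).2 _ (g j).2 (fun h => hij (g.injective (Subtype.ext h)))
  refine ⟨fun q => if q.2 then (p q.1).2 else (p q.1).1, ?_, fun i => ?_⟩
  · rintro ⟨i, a⟩ ⟨j, b⟩ hij
    by_cases hne : i = j
    · subst hne
      cases a <;> cases b
      · rfl
      · exfalso
        simp only [Bool.false_eq_true, if_false, if_true] at hij
        exact (h3 i).ne hij
      · exfalso
        simp only [Bool.false_eq_true, if_false, if_true] at hij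
        exact (h3 i).ne hij.symm
      · rfl
    · exfalso
      obtain ⟨k1, k2, k3, k4⟩ := key i j hne
      cases a <;> cases b
      · simp only [Bool.false_eq_true, if_false] at hij
        have := h1 i
        rw [hij] at this
        exact k1 (eq_of_mem b2 this (h1 j))
      · simp only [Bool.false_eq_true, if_false, if_true] at hij
        have := h1 i
        rw [hij] at this
        exact k2 (eq_of_mem b2 this (h2 j))
      · simp only [Bool.false_eq_true, if_false, if_true] at hij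
        have := h2 i
        rw [hij] at this
        exact k3 (eq_of_mem b2 this (h1 j))
      · simp only [if_true] at hij
        have := h2 i
        rw [hij] at this
        exact k4 (eq_of_mem b2 this (h2 j))
  · simp only [Bool.false_eq_true, if_false, if_true]
    exact h3 i

theorem cl3_of (b1 : ∀ v, (K.induce (B v)).Preconnected)
    (b2 : ∀ v w, v ≠ w → Disjoint (B v) (B w))
    (b3 : ∀ v w, (under s t).Adj v w → ∃ x ∈ B v, ∃ y ∈ B w, K.Adj x y)
    (h : ∃ X : Finset W, X.card ≤ 5 ∧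
      ∀ a b c, K.Adj a b → K.Adj b c → a ≠ c → a ∈ X ∨ b ∈ X ∨ c ∈ X) :
    Pool.Agent.Q253.P3.Cl3 s t := by
  classical
  obtain ⟨X, hX, h⟩ := h
  refine ⟨univ.filter (fun v => ∃ x ∈ X, x ∈ B v), (card_hit b2 X).trans hX, ?_⟩
  intro a b c e f ha hb hc hab hbc he hf
  simp only [mem_filter, mem_univ, true_and, not_exists, not_and] at ha hb hc
  by_contra hac
  have h1 : (under s t).Adj a b := under_adj.mpr ⟨hab, e, he⟩
  have h2 : (under s t).Adj b c := under_adj.mpr ⟨hbc, f, hf⟩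
  obtain ⟨u, hu, v, hv, huv⟩ := b3 a b h1
  obtain ⟨v', hv', w, hw, hvw⟩ := b3 b c h2
  by_cases hvv : v = v'
  · subst hvv
    have huw : u ≠ w := by
      rintro rfl
      exact hac (eq_of_mem b2 hu hw)
    rcases h u v w huv hvw huw with h3 | h3 | h3
    · exact ha u h3 hu
    · exact hb v h3 hv
    · exact hc w h3 hw
  · have h4 := (pre_iff _ _).mp (b1 b) v hv v' hv'
    rcases Relation.ReflTransGen.cases_head h4 with h5 | ⟨z, h5, _⟩
    · exact hvv h5
    · have huz : u ≠ z := by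
        rintro rfl
        exact hab (eq_of_mem b2 hu h5.2.1)
      rcases h u v z huv h5.2.2 huz with h3 | h3 | h3
      · exact ha u h3 hu
      · exact hb v h3 hv
      · exact hb z h3 h5.2.1

/-! ### Path decompositions -/

theorem pd_of (b1 : ∀ v, (K.induce (B v)).Preconnected)
    (b2 : ∀ v w, v ≠ w → Disjoint (B v) (B w))
    (b3 : ∀ v w, (under s t).Adj v w → ∃ x ∈ B v, ∃ y ∈ B w, K.Adj x y)
    (h : PathwidthLeFive K) : TH497.PW.HasPD 6 s t := by
  classical
  obtain ⟨X, h1, h2, h3⟩ := h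
  let φ : V ≃ Fin (Fintype.card V) := Fintype.equivFin V
  let Y : ℕ → Finset V := fun i => univ.filter (fun v =>
    (¬ Nis s t v ∧ i = (φ v).val) ∨
      (Nis s t v ∧ Fintype.card V ≤ i ∧ ∃ x ∈ X (i - Fintype.card V), x ∈ B v))
  have mY : ∀ i v, v ∈ Y i ↔ ((¬ Nis s t v ∧ i = (φ v).val) ∨
      (Nis s t v ∧ Fintype.card V ≤ i ∧ ∃ x ∈ X (i - Fintype.card V), x ∈ B v)) := by
    intro i v
    simp only [Y, mem_filter, mem_univ, true_and]
  have pair : ∀ v w, (under s t).Adj v w → ∃ i, v ∈ Y i ∧ w ∈ Y i := by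
    intro v w hvw
    obtain ⟨x, hx, y, hy, hxy⟩ := b3 v w hvw
    obtain ⟨i, hi1, hi2⟩ := h1 x y hxy
    refine ⟨i + Fintype.card V, ?_, ?_⟩
    · rw [mY, Nat.add_sub_cancel]
      exact Or.inr ⟨nis_of_adj hvw, Nat.le_add_left _ _, x, hi1, hx⟩
    · rw [mY, Nat.add_sub_cancel]
      exact Or.inr ⟨nis_of_adj hvw.symm, Nat.le_add_left _ _, y, hi2, hy⟩
  refine ⟨Y, fun e => ?_, fun i j k hij hjk v hv => ?_, fun i => ?_⟩
  · by_cases he : s e = t e
    · rw [he]
      by_cases hn : Nis s t (t e)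
      · obtain ⟨w, hw⟩ := adj_of_nis hn
        obtain ⟨i, hi, _⟩ := pair _ w hw
        exact ⟨i, hi, hi⟩
      · refine ⟨(φ (t e)).val, ?_, ?_⟩
        · rw [mY]; exact Or.inl ⟨hn, rfl⟩
        · rw [mY]; exact Or.inl ⟨hn, rfl⟩
    · exact pair _ _ (under_adj.mpr ⟨he, e, Or.inl ⟨rfl, rfl⟩⟩)
  · rw [mem_inter, mY, mY] at hv
    rw [mY]
    obtain ⟨h4 | h4, h5 | h5⟩ := hv
    · left
      refine ⟨h4.1, ?_⟩
      have := h4.2
      have := h5.2
      omega
    · exact absurd h5.1 h4.1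
    · exact absurd h4.1 h5.1
    · right
      obtain ⟨hn, hi, x, hx, hxB⟩ := h4
      obtain ⟨_, hk, y, hy, hyB⟩ := h5
      refine ⟨hn, hi.trans hij, ?_⟩
      by_contra hno
      push Not at hno
      have step : ∀ z m, z ∈ B v → z ∈ X m → m < j - Fintype.card V →
          ∀ m', z ∈ X m' → m' < j - Fintype.card V := by
        intro z m hz hm hlt m' hm'
        by_contra hge
        push Not at hge
        exact hno z (h2 m _ m' hlt.le hge z hm hm') hz
      have hxlt : ∀ m', x ∈ X m' → m' < j - Fintype.card V := by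
        apply step x (i - Fintype.card V) hxB hx
        rcases Nat.lt_or_ge (i - Fintype.card V) (j - Fintype.card V) with h6 | h6
        · exact h6
        · exfalso
          have : i - Fintype.card V = j - Fintype.card V := by omega
          rw [this] at hx
          exact hno x hx hxB
      have key : ∀ z, Relation.ReflTransGen (stp K (B v)) x z →
          ∀ m', z ∈ X m' → m' < j - Fintype.card V := by
        intro z hz
        induction hz with
        | refl => exact hxlt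
        | tail _ h6 ih =>
          obtain ⟨m, hm1, hm2⟩ := h1 _ _ h6.2.2
          exact step _ m h6.2.1 hm2 (ih m hm1)
      have := key y ((pre_iff _ _).mp (b1 v) x hxB y hyB) _ hy
      omega
  · by_cases hi : i < Fintype.card V
    · refine (card_le_one.mpr ?_).trans (by norm_num)
      intro a ha b hb
      rw [mY] at ha hb
      rcases ha with ha | ha
      · rcases hb with hb | hb
        · apply φ.injective
          apply Fin.ext
          rw [← ha.2, hb.2]
        · omega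
      · omega
    · refine le_trans (card_le_card ?_) ((card_hit b2 (X (i - Fintype.card V))).trans (h3 _))
      intro a ha
      rw [mY] at ha
      rcases ha with ha | ha
      · exfalso
        have := (φ a).isLt
        omega
      · exact mem_filter.mpr ⟨mem_univ _, ha.2.2⟩

/-! ### The cube -/

theorem cube_of (h : Pool.Agent.H16.Cub.Mnr (Pool.Agent.H16.Cub.pga (id : Fin 4 → Fin 4))
    Pool.Agent.H16.Cub.pgb s t) : IsMinor cube (under s t) := by
  classical
  obtain ⟨C, h1, h2, h3⟩ := h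
  have adj : ∀ l, ∃ x ∈ (C (Pool.Agent.H16.Cub.pga (id : Fin 4 → Fin 4) l) : Set V),
      ∃ y ∈ (C (Pool.Agent.H16.Cub.pgb l) : Set V), (under s t).Adj x y := by
    intro l
    have hne : Pool.Agent.H16.Cub.pga (id : Fin 4 → Fin 4) l ≠ Pool.Agent.H16.Cub.pgb l :=
      Pool.Agent.H16.Cub.pg_ne (by omega) id l
    obtain ⟨e, ⟨he1, he2⟩ | ⟨he1, he2⟩⟩ := h3 l
    · refine ⟨s e, he1, t e, he2, under_adj.mpr ⟨fun h => ?_, e, Or.inl ⟨rfl, rfl⟩⟩⟩
      exact disjoint_left.mp (h2 _ _ hne) he1 (h ▸ he2)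
    · refine ⟨t e, he2, s e, he1, under_adj.mpr ⟨fun h => ?_, e, Or.inr ⟨rfl, rfl⟩⟩⟩
      exact disjoint_left.mp (h2 _ _ hne) he2 (h ▸ he1)
  refine ⟨fun i => (C i : Set V), fun i => ?_, fun i j hij => ?_, ?_⟩
  · rw [pre_iff]
    intro x hx y hy
    by_contra hno
    let A : Finset V := (C i).filter (fun z => Relation.ReflTransGen (stp (under s t) (C i)) x z)
    have hA : A ⊆ C i := filter_subset _ _
    have hA0 : A.Nonempty := ⟨x, mem_filter.mpr ⟨hx, Relation.ReflTransGen.refl⟩⟩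
    have hA1 : A ≠ C i := by
      intro h
      apply hno
      have : y ∈ A := by rw [h]; exact hy
      exact (mem_filter.mp this).2
    obtain ⟨e, he⟩ := (h1 i).2 A hA hA0 hA1
    have fin : ∀ a b, a ∈ A → b ∈ C i \ A → (∃ e, (s e = a ∧ t e = b) ∨ (s e = b ∧ t e = a)) →
        False := by
      intro a b ha hb hab
      obtain ⟨hb1, hb2⟩ := mem_sdiff.mp hb
      apply hb2
      refine mem_filter.mpr ⟨hb1, (mem_filter.mp ha).2.tail ⟨hA ha, hb1, ?_⟩⟩
      refine under_adj.mpr ⟨?_, hab⟩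
      rintro rfl
      exact hb2 ha
    rcases he with ⟨he1, he2⟩ | ⟨he1, he2⟩
    · exact fin _ _ he1 he2 ⟨e, Or.inl ⟨rfl, rfl⟩⟩
    · exact fin _ _ he2 he1 ⟨e, Or.inr ⟨rfl, rfl⟩⟩
  · rw [Finset.disjoint_coe]
    exact h2 i j hij
  · have key : ∀ v w : Bool × Fin 4, ((v.1 = w.1 ∧ w.2 = v.2 + 1) ∨ v.2 = w.2) → v ≠ w →
        (∃ x ∈ (C v : Set V), ∃ y ∈ (C w : Set V), (under s t).Adj x y) := by
      rintro ⟨a, i⟩ ⟨b, j⟩ h hne
      rcases h with ⟨h4, h5⟩ | h4
      · simp only at h4 h5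
        subst h4 h5
        cases a
        · exact adj (0, i)
        · exact adj (1, i)
      · simp only at h4
        subst h4
        cases a <;> cases b
        · exact absurd rfl hne
        · exact adj (2, i)
        · obtain ⟨x, hx, y, hy, hxy⟩ := adj (2, i)
          exact ⟨y, hy, x, hx, hxy.symm⟩
        · exact absurd rfl hne
    intro v w hvw
    unfold cube at hvw
    rw [SimpleGraph.fromRel_adj] at hvw
    obtain ⟨hne, h4 | h4⟩ := hvw
    · exact key v w h4 hne
    · obtain ⟨x, hx, y, hy, hxy⟩ := key w v h4 hne.symm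
      exact ⟨y, hy, x, hx, hxy.symm⟩

/-! ### Long circuits -/

theorem path_in {A : Set W} {x y : W} (h : Relation.ReflTransGen (stp K A) x y) (hx : x ∈ A) :
    ∃ p : K.Walk x y, p.IsPath ∧ ∀ z ∈ p.support, z ∈ A := by
  classical
  have : ∃ p : K.Walk x y, ∀ z ∈ p.support, z ∈ A := by
    induction h with
    | refl =>
      refine ⟨SimpleGraph.Walk.nil, fun z hz => ?_⟩
      rw [SimpleGraph.Walk.support_nil, List.mem_singleton] at hz
      rw [hz]; exact hx
    | tail _ h2 ih =>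
      obtain ⟨p, hp⟩ := ih
      refine ⟨p.concat h2.2.2, fun z hz => ?_⟩
      rw [SimpleGraph.Walk.support_concat, List.mem_append, List.mem_singleton] at hz
      rcases hz with hz | rfl
      · exact hp z hz
      · exact h2.2.1
  obtain ⟨p, hp⟩ := this
  exact ⟨p.bypass, p.bypass_isPath, fun z hz => hp z (p.support_bypass_subset_support hz)⟩

theorem no_edge {x y : W} (p : K.Walk x y) (hp : p.IsPath) (hl : 2 ≤ p.length) :
    s(y, x) ∉ p.edges := by
  cases p with
  | nil => simp at hl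
  | @cons _ z _ h q =>
    rw [SimpleGraph.Walk.cons_isPath_iff] at hp
    rw [SimpleGraph.Walk.edges_cons, List.mem_cons, not_or]
    refine ⟨fun h1 => ?_, fun h1 => ?_⟩
    · rw [Sym2.eq_iff] at h1
      rcases h1 with ⟨h2, h3⟩ | ⟨h2, _⟩
      · exact h.ne h3
      · subst h2
        have h4 := hp.1
        rw [SimpleGraph.Walk.isPath_iff_nil] at h4
        rw [SimpleGraph.Walk.length_cons, SimpleGraph.Walk.length_eq_zero_iff.mpr h4] at hl
        omega
    · exact hp.2 (q.snd_mem_support_of_mem_edges h1)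

theorem cl_of' (b1 : ∀ v, (K.induce (B v)).Preconnected)
    (b2 : ∀ v w, v ≠ w → Disjoint (B v) (B w))
    (b3 : ∀ v w, (under s t).Adj v w → ∃ x ∈ B v, ∃ y ∈ B w, K.Adj x y)
    (h : ∀ (v : W) (p : K.Walk v v), p.IsCycle → p.length ≤ 15) :
    Pool.Agent.W5h14.Circ.Cl 15 s t := by
  classical
  intro k hk c hc
  have hadj : ∀ i, ∃ p : W × W, p.1 ∈ B (c i) ∧ p.2 ∈ B (c (i + 1)) ∧ K.Adj p.1 p.2 := by
    intro i
    obtain ⟨hne, e, he⟩ := hc.adj i
    obtain ⟨x, hx, y, hy, hxy⟩ := b3 (c i) (c (i + 1)) (under_adj.mpr ⟨hne, e, he⟩)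
    exact ⟨(x, y), hx, hy, hxy⟩
  choose p h1 h2 h3 using hadj
  have hk1 : k - 1 + 1 = k := by omega
  have h0 : (p (k - 1)).2 ∈ B (c 0) := by
    have := h2 (k - 1)
    rw [hk1] at this
    have h4 := hc.per 0
    rw [zero_add] at h4
    rwa [h4] at this
  have main : ∀ n, n < k → ∃ q : K.Walk (p (k - 1)).2 (p n).1, q.IsPath ∧ n ≤ q.length ∧
      ∀ z ∈ q.support, ∃ i, i ≤ n ∧ z ∈ B (c i) := by
    intro n
    induction n with
    | zero =>
      intro _
      obtain ⟨q, hq, hq'⟩ := path_in ((pre_iff _ _).mp (b1 (c 0)) _ h0 _ (h1 0)) h0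
      exact ⟨q, hq, Nat.zero_le _, fun z hz => ⟨0, le_rfl, hq' z hz⟩⟩
    | succ n ih =>
      intro hn
      obtain ⟨q, q1, q2, q3⟩ := ih (by omega)
      obtain ⟨r, r1, r2⟩ := path_in ((pre_iff _ _).mp (b1 (c (n + 1))) _ (h2 n) _ (h1 (n + 1)))
        (h2 n)
      have hsup : (q.append (SimpleGraph.Walk.cons (h3 n) r)).support = q.support ++ r.support := by
        rw [SimpleGraph.Walk.support_append, SimpleGraph.Walk.support_cons, List.tail_cons]
      refine ⟨q.append (SimpleGraph.Walk.cons (h3 n) r), ?_, ?_, ?_⟩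
      · rw [SimpleGraph.Walk.isPath_def, hsup, List.nodup_append]
        refine ⟨q1.support_nodup, r1.support_nodup, ?_⟩
        intro a ha b hb hab
        subst hab
        obtain ⟨i, hi, hia⟩ := q3 a ha
        have h5 := hc.inj i (n + 1) (by omega) hn (eq_of_mem b2 hia (r2 a hb))
        omega
      · rw [SimpleGraph.Walk.length_append, SimpleGraph.Walk.length_cons]
        omega
      · intro z hz
        rw [hsup, List.mem_append] at hz
        rcases hz with hz | hz
        · obtain ⟨i, hi, hiz⟩ := q3 z hz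
          exact ⟨i, by omega, hiz⟩
        · exact ⟨n + 1, le_rfl, r2 z hz⟩
  obtain ⟨q, q1, q2, _⟩ := main (k - 1) (by omega)
  have hcyc : (SimpleGraph.Walk.cons (h3 (k - 1)) q).IsCycle := by
    rw [SimpleGraph.Walk.cons_isCycle_iff]
    exact ⟨q1, no_edge q q1 (by omega)⟩
  have := h _ _ hcyc
  rw [SimpleGraph.Walk.length_cons] at this
  omega

/-! ### The basic graphs -/

theorem Good.basic [Finite W] (hK : Basic K) : Good K := by
  rintro V E _ _ _ _ s t hM hP ⟨B, b1, b2, b3⟩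
  rcases hK with h | h | h | h | h | h | h
  · have := few hM hP b2 b3
    omega
  · exact hM.nf (Pool.Agent.TH395.P5.final V E s t (pd_of b1 b2 b3 h) hP hM.br)
  · exact hM.nf (Pool.Agent.W5h14.Circ.flow15 (cl_of' b1 b2 b3 h) hP hM.br)
  · exact hM.nf (Pool.Agent.Q253.VC.flow_of_cov s t hM.br hP (cov_of b2 b3 h))
  · exact hM.nf (Pool.Agent.Q253.M8.flow_of_mt s t hM.br hP (mt_of b2 b3 h))
  · exact hM.nf (Pool.Agent.Q253.P3.flow_of_p3 s t hM.br hP (cl3_of b1 b2 b3 h))
  · rcases Pool.Agent.H16.Cub.of_minCx hM with h1 | h1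
    · exact hP h1
    · exact h ((cube_of h1.2).trans ⟨B, b1, b2, b3⟩)

theorem Tame.good {W : Type} {K : SimpleGraph W} (h : Tame K) : Good K := by
  induction h with
  | basic K hK => exact Good.basic hK
  | minor H K hm _ ih => exact Good.minor hm ih
  | sum K X Y S h1 h2 h3 _ _ ih1 ih2 => exact Good.sum h1 h2 h3 ih1 ih2

end Pool.Agent.H79.FF
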