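import Pool.Agent.H79.FF.Defs

set_option autoImplicit false

/-!
# Minors of simple graphs
-/

namespace Pool.Agent.H79.FF

/-- steps inside a set -/
def stp {W : Type} (K : SimpleGraph W) (A : Set W) (x y : W) : Prop := x ∈ A ∧ y ∈ A ∧ K.Adj x y

/-- connected sets and walks -/
theorem pre_iff {W : Type} (K : SimpleGraph W) (A : Set W) : (K.induce A).Preconnected ↔
    ∀ x ∈ A, ∀ y ∈ A, Relation.ReflTransGen (stp K A) x y := by
  constructor
  · intro h x hx y hy
    obtain ⟨p⟩ := h ⟨x, hx⟩ ⟨y, hy⟩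
    have key : ∀ (u v : A) (p : (K.induce A).Walk u v),
        Relation.ReflTransGen (stp K A) u.1 v.1 := by
      intro u v p
      induction p with
      | nil => exact Relation.ReflTransGen.refl
      | cons h _ ih => exact Relation.ReflTransGen.head ⟨Subtype.prop _, Subtype.prop _, h⟩ ih
    exact key _ _ p
  · rintro h ⟨x, hx⟩ ⟨y, hy⟩
    have key : ∀ z, Relation.ReflTransGen (stp K A) x z → ∀ hz : z ∈ A,
        (K.induce A).Reachable ⟨x, hx⟩ ⟨z, hz⟩ := by
      intro z hz
      induction hz with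
      | refl => intro _; exact SimpleGraph.Reachable.refl _
      | tail _ h2 ih =>
        intro hz'
        refine (ih h2.1).trans (SimpleGraph.Adj.reachable ?_)
        exact h2.2.2
    exact key y (h x hx y hy) hy

theorem IsMinor.trans {U V W : Type} {H : SimpleGraph U} {K : SimpleGraph V} {L : SimpleGraph W}
    (h1 : IsMinor H K) (h2 : IsMinor K L) : IsMinor H L := by
  obtain ⟨B, b1, b2, b3⟩ := h1
  obtain ⟨C, c1, c2, c3⟩ := h2
  refine ⟨fun u => ⋃ v ∈ B u, C v, fun u => ?_, fun u u' huu => ?_, fun u u' huu => ?_⟩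
  · rw [pre_iff]
    intro x hx y hy
    simp only [Set.mem_iUnion] at hx hy
    obtain ⟨v, hv, hx⟩ := hx
    obtain ⟨w, hw, hy⟩ := hy
    have mono : ∀ v ∈ B u, ∀ a b, Relation.ReflTransGen (stp L (C v)) a b →
        Relation.ReflTransGen (stp L (⋃ v ∈ B u, C v)) a b := by
      intro v hv a b hab
      induction hab with
      | refl => exact Relation.ReflTransGen.refl
      | tail _ h2 ih =>
        exact ih.tail ⟨Set.mem_biUnion hv h2.1, Set.mem_biUnion hv h2.2.1, h2.2.2⟩
    have key : ∀ w, Relation.ReflTransGen (stp K (B u)) v w → ∀ y ∈ C w,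
        Relation.ReflTransGen (stp L (⋃ v ∈ B u, C v)) x y := by
      intro w hvw
      induction hvw with
      | refl => intro y hy; exact mono v hv _ _ ((pre_iff _ _).mp (c1 v) x hx y hy)
      | tail _ h2 ih =>
        intro y hy
        obtain ⟨p, hp, q, hq, hpq⟩ := c3 _ _ h2.2.2
        refine ((ih p hp).tail ⟨Set.mem_biUnion h2.1 hp, Set.mem_biUnion h2.2.1 hq, hpq⟩).trans ?_
        exact mono _ h2.2.1 _ _ ((pre_iff _ _).mp (c1 _) q hq y hy)
    exact key w ((pre_iff _ _).mp (b1 u) v hv w hw) y hy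
  · rw [Set.disjoint_left]
    intro x hx hx'
    simp only [Set.mem_iUnion] at hx hx'
    obtain ⟨v, hv, hx⟩ := hx
    obtain ⟨w, hw, hx'⟩ := hx'
    by_cases hvw : v = w
    · subst hvw
      exact Set.disjoint_left.mp (b2 u u' huu) hv hw
    · exact Set.disjoint_left.mp (c2 v w hvw) hx hx'
  · obtain ⟨v, hv, w, hw, hvw⟩ := b3 u u' huu
    obtain ⟨x, hx, y, hy, hxy⟩ := c3 v w hvw
    exact ⟨x, Set.mem_biUnion hv hx, y, Set.mem_biUnion hw hy, hxy⟩

theorem IsMinor.rfl' {V : Type} (H : SimpleGraph V) : IsMinor H H := by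
  refine ⟨fun v => {v}, fun v => ?_, fun v w h => ?_, fun v w h => ⟨v, Set.mem_singleton _, w, Set.mem_singleton _, h⟩⟩
  · rw [pre_iff]
    rintro x rfl y rfl
    exact Relation.ReflTransGen.refl
  · exact Set.disjoint_singleton.mpr h

theorem under_adj {V E : Type} {s t : E → V} {x y : V} :
    (under s t).Adj x y ↔ x ≠ y ∧ ∃ e, (s e = x ∧ t e = y) ∨ (s e = y ∧ t e = x) := by
  unfold under
  rw [SimpleGraph.fromRel_adj]
  constructor
  · rintro ⟨h, ⟨e, he⟩ | ⟨e, he⟩⟩
    · exact ⟨h, e, Or.inl he⟩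
    · exact ⟨h, e, Or.inr he⟩
  · rintro ⟨h, e, he | he⟩
    · exact ⟨h, Or.inl ⟨e, he⟩⟩
    · exact ⟨h, Or.inr ⟨e, he⟩⟩

/-- **Sums**: if the part `J` of the vertices of `H` outside of the side `X` is small and attached
to `S` only, then `H` is a minor of the side. -/
theorem embed {V W : Type} {H : SimpleGraph V} {K : SimpleGraph W} {X Y S : Set W}
    (hcov : ∀ v, v ∈ X ∨ v ∈ Y ∨ v ∈ S) (hXY : ∀ x ∈ X, ∀ y ∈ Y, ¬ K.Adj x y)
    (B : V → Set W) (b1 : ∀ v, (K.induce (B v)).Preconnected)
    (b2 : ∀ v w, v ≠ w → Disjoint (B v) (B w))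
    (b3 : ∀ v w, H.Adj v w → ∃ x ∈ B v, ∃ y ∈ B w, K.Adj x y)
    (J : Finset V) (hJ : J.card ≤ S.ncard - 2)
    (far : ∀ v, v ∉ J → (∃ w, H.Adj v w) → (B v ∩ S).Nonempty ∨ B v ⊆ X)
    (clos : ∀ v ∈ J, ∀ w, w ∉ J → H.Adj v w → (B w ∩ S).Nonempty) :
    IsMinor H (side K X S) := by
  classical
  obtain ⟨f⟩ : Nonempty (J ↪ Fin (S.ncard - 2)) := by
    apply Function.Embedding.nonempty_of_card_le
    rw [Fintype.card_coe, Fintype.card_fin]
    exact hJ
  -- adjacency in the side
  have adjXS : ∀ x y, x ∈ X ∪ S → y ∈ X ∪ S → K.Adj x y →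
      (side K X S).Adj (Sum.inl x) (Sum.inl y) := by
    intro x y hx hy h
    unfold side
    rw [SimpleGraph.fromRel_adj]
    exact ⟨fun h1 => h.ne (Sum.inl_injective h1), Or.inl (Or.inl ⟨h, hx, hy⟩)⟩
  have adjS : ∀ x y, x ∈ S → y ∈ S → x ≠ y → (side K X S).Adj (Sum.inl x) (Sum.inl y) := by
    intro x y hx hy h
    unfold side
    rw [SimpleGraph.fromRel_adj]
    exact ⟨fun h1 => h (Sum.inl_injective h1), Or.inl (Or.inr ⟨hx, hy⟩)⟩
  have adjN : ∀ x i, x ∈ S → (side K X S).Adj (Sum.inl x) (Sum.inr i) := by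
    intro x i hx
    unfold side
    rw [SimpleGraph.fromRel_adj]
    exact ⟨Sum.inl_ne_inr, Or.inl hx⟩
  have adjNN : ∀ i j, i ≠ j → (side K X S).Adj (Sum.inr i) (Sum.inr j) := by
    intro i j hij
    unfold side
    rw [SimpleGraph.fromRel_adj]
    exact ⟨fun h1 => hij (Sum.inr_injective h1), Or.inl trivial⟩
  let C : V → Set (W ⊕ Fin (S.ncard - 2)) := fun v =>
    if h : v ∈ J then {Sum.inr (f ⟨v, h⟩)} else Sum.inl '' (B v ∩ (X ∪ S))
  have cJ : ∀ v (h : v ∈ J), C v = {Sum.inr (f ⟨v, h⟩)} := fun v h => dif_pos h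
  have cN : ∀ v, v ∉ J → C v = Sum.inl '' (B v ∩ (X ∪ S)) := fun v h => dif_neg h
  refine ⟨C, fun v => ?_, fun v w hvw => ?_, fun v w hvw => ?_⟩
  · by_cases hv : v ∈ J
    · rw [cJ v hv, pre_iff]
      rintro x rfl y rfl
      exact Relation.ReflTransGen.refl
    · rw [cN v hv, pre_iff]
      rintro _ ⟨a, ⟨haB, haX⟩, rfl⟩ _ ⟨b, ⟨hbB, hbX⟩, rfl⟩
      have mem : ∀ x, x ∈ B v → x ∈ X ∪ S →
          (Sum.inl x : W ⊕ Fin (S.ncard - 2)) ∈ Sum.inl '' (B v ∩ (X ∪ S)) :=
        fun x h1 h2 => ⟨x, ⟨h1, h2⟩, rfl⟩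
      have key : ∀ x, Relation.ReflTransGen (stp K (B v)) a x →
          (x ∈ X ∪ S → Relation.ReflTransGen
            (stp (side K X S) (Sum.inl '' (B v ∩ (X ∪ S)))) (Sum.inl a) (Sum.inl x)) ∧
          (x ∉ X ∪ S → ∃ z ∈ S, z ∈ B v ∧ Relation.ReflTransGen
            (stp (side K X S) (Sum.inl '' (B v ∩ (X ∪ S)))) (Sum.inl a) (Sum.inl z)) := by
        intro x hx
        induction hx with
        | refl => exact ⟨fun _ => Relation.ReflTransGen.refl, fun h => absurd haX h⟩
        | @tail x y _ h2 ih =>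
          obtain ⟨hxB, hyB, hxy⟩ := h2
          by_cases hx : x ∈ X ∪ S
          · have h3 := ih.1 hx
            constructor
            · intro hy
              exact h3.tail ⟨mem x hxB hx, mem y hyB hy, adjXS x y hx hy hxy⟩
            · intro hy
              have hyY : y ∈ Y := by
                rcases hcov y with h | h | h
                · exact absurd (Or.inl h) hy
                · exact h
                · exact absurd (Or.inr h) hy
              have hxS : x ∈ S := by
                rcases hx with h | h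
                · exact absurd hxy (hXY x h y hyY)
                · exact h
              exact ⟨x, hxS, hxB, h3⟩
          · obtain ⟨z, hzS, hzB, h3⟩ := ih.2 hx
            constructor
            · intro hy
              have hxY : x ∈ Y := by
                rcases hcov x with h | h | h
                · exact absurd (Or.inl h) hx
                · exact h
                · exact absurd (Or.inr h) hx
              have hyS : y ∈ S := by
                rcases hy with h | h
                · exact absurd hxy.symm (hXY y h x hxY)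
                · exact h
              by_cases hzy : z = y
              · rw [← hzy]; exact h3
              · exact h3.tail ⟨mem z hzB (Or.inr hzS), mem y hyB (Or.inr hyS), adjS z y hzS hyS hzy⟩
            · intro _
              exact ⟨z, hzS, hzB, h3⟩
      exact (key b ((pre_iff _ _).mp (b1 v) a haB b hbB)).1 hbX
  · rw [Set.disjoint_left]
    intro x hx hx'
    by_cases hv : v ∈ J
    · rw [cJ v hv] at hx
      obtain rfl := Set.mem_singleton_iff.mp hx
      by_cases hw : w ∈ J
      · rw [cJ w hw] at hx'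
        have h1 := f.injective (Sum.inr_injective (Set.mem_singleton_iff.mp hx'))
        exact hvw (congrArg Subtype.val h1)
      · rw [cN w hw] at hx'
        obtain ⟨a, _, ha⟩ := hx'
        cases ha
    · rw [cN v hv] at hx
      obtain ⟨a, ⟨ha, _⟩, rfl⟩ := hx
      by_cases hw : w ∈ J
      · rw [cJ w hw] at hx'
        cases Set.mem_singleton_iff.mp hx'
      · rw [cN w hw] at hx'
        obtain ⟨b, ⟨hb, _⟩, hab⟩ := hx'
        obtain rfl := Sum.inl_injective hab
        exact Set.disjoint_left.mp (b2 v w hvw) ha hb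
  · -- adjacency
    have meet : ∀ v, v ∉ J → (∃ w, H.Adj v w) → ∀ x ∈ B v, x ∉ X ∪ S → (B v ∩ S).Nonempty := by
      intro v hv hw x hx hx'
      rcases far v hv hw with h | h
      · exact h
      · exact absurd (Or.inl (h hx)) hx'
    by_cases hv : v ∈ J
    · by_cases hw : w ∈ J
      · refine ⟨_, by rw [cJ v hv]; exact Set.mem_singleton _, _, by rw [cJ w hw]; exact Set.mem_singleton _, ?_⟩
        apply adjNN
        intro h1
        exact hvw.ne (congrArg Subtype.val (f.injective h1))
      · obtain ⟨s, hs1, hs2⟩ := clos v hv w hw hvw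
        refine ⟨_, by rw [cJ v hv]; exact Set.mem_singleton _, Sum.inl s, ?_, (adjN s _ hs2).symm⟩
        rw [cN w hw]
        exact ⟨s, ⟨hs1, Or.inr hs2⟩, rfl⟩
    · by_cases hw : w ∈ J
      · obtain ⟨s, hs1, hs2⟩ := clos w hw v hv hvw.symm
        refine ⟨Sum.inl s, ?_, _, by rw [cJ w hw]; exact Set.mem_singleton _, adjN s _ hs2⟩
        rw [cN v hv]
        exact ⟨s, ⟨hs1, Or.inr hs2⟩, rfl⟩
      · rw [cN v hv, cN w hw]
        obtain ⟨x, hx, y, hy, hxy⟩ := b3 v w hvw
        by_cases hxX : x ∈ X ∪ S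
        · by_cases hyX : y ∈ X ∪ S
          · exact ⟨_, ⟨x, ⟨hx, hxX⟩, rfl⟩, _, ⟨y, ⟨hy, hyX⟩, rfl⟩, adjXS x y hxX hyX hxy⟩
          · -- `y` is in `Y`, so `x` is in `S`
            obtain ⟨q, hq1, hq2⟩ := meet w hw ⟨v, hvw.symm⟩ y hy hyX
            have hyY : y ∈ Y := by
              rcases hcov y with h | h | h
              · exact absurd (Or.inl h) hyX
              · exact h
              · exact absurd (Or.inr h) hyX
            have hxS : x ∈ S := by
              rcases hxX with h | h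
              · exact absurd hxy (hXY x h y hyY)
              · exact h
            refine ⟨_, ⟨x, ⟨hx, hxX⟩, rfl⟩, _, ⟨q, ⟨hq1, Or.inr hq2⟩, rfl⟩, adjS x q hxS hq2 ?_⟩
            rintro rfl
            exact Set.disjoint_left.mp (b2 v w hvw.ne) hx hq1
        · obtain ⟨p, hp1, hp2⟩ := meet v hv ⟨w, hvw⟩ x hx hxX
          have hxY : x ∈ Y := by
            rcases hcov x with h | h | h
            · exact absurd (Or.inl h) hxX
            · exact h
            · exact absurd (Or.inr h) hxX
          by_cases hyX : y ∈ X ∪ S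
          · have hyS : y ∈ S := by
              rcases hyX with h | h
              · exact absurd hxy.symm (hXY y h x hxY)
              · exact h
            refine ⟨_, ⟨p, ⟨hp1, Or.inr hp2⟩, rfl⟩, _, ⟨y, ⟨hy, hyX⟩, rfl⟩, adjS p y hp2 hyS ?_⟩
            rintro rfl
            exact Set.disjoint_left.mp (b2 v w hvw.ne) hp1 hy
          · obtain ⟨q, hq1, hq2⟩ := meet w hw ⟨v, hvw.symm⟩ y hy hyX
            refine ⟨_, ⟨p, ⟨hp1, Or.inr hp2⟩, rfl⟩, _, ⟨q, ⟨hq1, Or.inr hq2⟩, rfl⟩,
              adjS p q hp2 hq2 ?_⟩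
            rintro rfl
            exact Set.disjoint_left.mp (b2 v w hvw.ne) hp1 hq1

end Pool.Agent.H79.FF
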